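import Pool.Agent.H9.CA.Tool

/-!
# Module DH: regularity of the least ordinal which is not an image of `C`
-/

set_option autoImplicit false

open Ordinal Order Set
open scoped ZFSet

namespace CAA

open SF

theorem pf_DH (hDF : T_DF) (hDG : T_DG) : T_DH := by
  intro M hM C hC hG μ hμ hlt hno
  obtain ⟨f1, f2, -, -, f5, -, f7, -, -, -⟩ := hDF M hM.toZFm C hC hG
  have hone : (1 : Ordinal.{0}).toZFSet ∈ C := by
    refine hG.tr.subset_of_mem hG.om ?_
    exact Ordinal.toZFSet_mem_toZFSet_iff.2 Ordinal.one_lt_omega0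
  have ha : ∀ α : Ordinal.{0}, α.toZFSet ∈ C → α < μ := by
    intro α hα
    by_contra h
    rw [not_lt] at h
    exact hno (f2 _ hμ ((Ordinal.toZFSet_subset_toZFSet_iff.2 h).trans (hG.tr.subset_of_mem hα)))
  have hlim : IsSuccLimit μ := by
    rcases Ordinal.zero_or_succ_or_isSuccLimit μ with h | ⟨δ, h⟩ | h
    · exfalso
      apply hno
      left
      rw [h, Ordinal.toZFSet_zero]
    · exfalso
      apply hno
      have hδμ : δ < μ := by rw [← h]; exact lt_succ δ
      have hδ := hlt δ hδμ
      have hMδ : M δ.toZFSet := hM.trans _ hμ _ (Ordinal.toZFSet_mem_toZFSet_iff.2 hδμ)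
      have h1 : (1 : Ordinal.{0}).toZFSet = {∅} := by
        have : (1 : Ordinal.{0}) = 0 + 1 := by simp
        rw [this, Ordinal.toZFSet_add_one, Ordinal.toZFSet_zero]
        rfl
      have hsing : Sm M C {δ.toZFSet} := by
        have hMe : M (∅ : V) := by
          have := hM.trans _ hM.inf (0 : Ordinal.{0}).toZFSet
            (Ordinal.toZFSet_mem_toZFSet_iff.2 Ordinal.omega0_pos)
          rwa [Ordinal.toZFSet_zero] at this
        have hMf : M ({ZFSet.pair ∅ δ.toZFSet} : V) := by
          have hsg : ∀ x, M x → M ({x} : V) := by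
            intro x hx
            have := hM.pair x x hx hx
            rwa [ZFSet.pair_eq_singleton] at this
          apply hsg
          unfold ZFSet.pair
          exact hM.pair _ _ (hsg _ hMe) (hM.pair _ _ hMe hMδ)
        have := f7 {∅} {ZFSet.pair ∅ δ.toZFSet} (h1 ▸ f1 _ hone) hMf ?_ ?_
        · have e : rg ({ZFSet.pair ∅ δ.toZFSet} : V) = {δ.toZFSet} := by
            ext y
            rw [mem_rg, ZFSet.mem_singleton]
            constructor
            · rintro ⟨x, hx⟩
              rw [ZFSet.mem_singleton] at hx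
              exact (ZFSet.pair_inj.1 hx).2
            · rintro rfl
              exact ⟨∅, by rw [ZFSet.mem_singleton]⟩
          rwa [e] at this
        · intro x y z hx hy
          rw [ZFSet.mem_singleton] at hx hy
          rw [(ZFSet.pair_inj.1 hx).2, (ZFSet.pair_inj.1 hy).2]
        · ext y
          rw [mem_dm, ZFSet.mem_singleton]
          constructor
          · rintro ⟨x, hx⟩
            rw [ZFSet.mem_singleton] at hx
            exact (ZFSet.pair_inj.1 hx).1
          · rintro rfl
            exact ⟨δ.toZFSet, by rw [ZFSet.mem_singleton]⟩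
      have := f5 _ _ hδ hsing
      have e : δ.toZFSet ∪ {δ.toZFSet} = μ.toZFSet := by
        rw [← h]
        ext y
        rw [ZFSet.mem_union, ZFSet.mem_singleton, Ordinal.mem_toZFSet_iff, Ordinal.mem_toZFSet_iff]
        constructor
        · rintro (⟨a, ha, rfl⟩ | rfl)
          · exact ⟨a, ha.trans (lt_succ δ), rfl⟩
          · exact ⟨δ, lt_succ δ, rfl⟩
        · rintro ⟨a, ha, rfl⟩
          rcases (lt_succ_iff.1 ha).lt_or_eq with h | rfl
          · exact Or.inl ⟨a, h, rfl⟩
          · exact Or.inr rfl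
      rwa [e] at this
    · exact h
  refine ⟨ha, ?_, hlim⟩
  intro x hx hxs hxμ
  by_contra hcon
  push Not at hcon
  apply hno
  have h1 : ∀ y ∈ x, Sm M C y := by
    intro y hy
    obtain ⟨β, hβ, rfl⟩ := Ordinal.mem_toZFSet_iff.1 (hxμ hy)
    exact hlt β hβ
  have h2 := hDG M hM C hC hG x hx hxs h1
  have e : (⋃₀ x : ZFSet) = μ.toZFSet := by
    ext z
    rw [ZFSet.mem_sUnion]
    constructor
    · rintro ⟨y, hy, hz⟩
      obtain ⟨β, hβ, rfl⟩ := Ordinal.mem_toZFSet_iff.1 (hxμ hy)
      exact Ordinal.toZFSet_monotone hβ.le hz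
    · intro hz
      obtain ⟨α, hα, rfl⟩ := Ordinal.mem_toZFSet_iff.1 hz
      have h3 := hcon (succ α) (hlim.succ_lt hα)
      rw [ZFSet.subset_def] at h3
      push Not at h3
      obtain ⟨y, hy, hy2⟩ := h3
      obtain ⟨β, hβ, rfl⟩ := Ordinal.mem_toZFSet_iff.1 (hxμ hy)
      refine ⟨_, hy, Ordinal.toZFSet_mem_toZFSet_iff.2 ?_⟩
      by_contra hle
      rw [not_lt] at hle
      exact hy2 (Ordinal.toZFSet_mem_toZFSet_iff.2 (lt_succ_of_le hle))
  rwa [e] at h2

end CAA
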