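import Pool.Agent.H1.CA.TarP

/-!
# Module PB: values of restrictions, mergings and updates
-/

set_option autoImplicit false

open Ordinal Order Set
open scoped ZFSet

namespace CAA

open SF

namespace H65

/-- outside of the domain the value is empty -/
theorem app_out {p k : V} (h : k ∉ dm p) : app p k = ∅ := by
  rw [mem_dm] at h
  unfold app
  have h1 : ((⋃₀ (⋃₀ p : ZFSet) : ZFSet).sep fun y => ZFSet.pair k y ∈ p) = ∅ := by
    refine (ZFSet.eq_empty _).2 fun z hz => ?_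
    exact h ⟨z, (ZFSet.mem_sep.1 hz).2⟩
  rw [h1]
  refine (ZFSet.eq_empty _).2 fun z hz => ?_
  rw [ZFSet.mem_sUnion] at hz
  obtain ⟨y, hy, -⟩ := hz
  exact ZFSet.notMem_empty _ hy

/-- the value depends only on the pairs with the given first component -/
theorem app_cong {p q k : V} (hp : Svl p) (hq : Svl q)
    (h : ∀ y, ZFSet.pair k y ∈ p ↔ ZFSet.pair k y ∈ q) : app p k = app q k := by
  by_cases h1 : k ∈ dm p
  · obtain ⟨y, hy⟩ := mem_dm.1 h1
    rw [app_eq hp hy, app_eq hq ((h y).1 hy)]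
  · have h2 : k ∉ dm q := by
      intro h3
      obtain ⟨y, hy⟩ := mem_dm.1 h3
      exact h1 (mem_dm.2 ⟨y, (h y).2 hy⟩)
    rw [app_out h1, app_out h2]

theorem pair_mem_rst {p S k y : V} : ZFSet.pair k y ∈ rst S p ↔ k ∈ S ∧ ZFSet.pair k y ∈ p := by
  unfold rst
  rw [ZFSet.mem_sep, fst_pair, and_comm]

theorem pair_mem_cat {p p' S k y : V} : ZFSet.pair k y ∈ cat S p p' ↔
    (k ∈ S ∧ ZFSet.pair k y ∈ p) ∨ (k ∉ S ∧ ZFSet.pair k y ∈ p') := by
  unfold cat
  rw [ZFSet.mem_union, ZFSet.mem_sep, ZFSet.mem_sep, fst_pair, and_comm, and_comm (a := _ ∈ p')]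

theorem pair_mem_upd {p k q j y : V} : ZFSet.pair j y ∈ upd p k q ↔
    (j = k ∧ y = q) ∨ (j ≠ k ∧ ZFSet.pair j y ∈ p) := by
  unfold upd
  rw [ZFSet.mem_insert_iff, ZFSet.mem_sep, fst_pair, ZFSet.pair_inj, and_comm (a := _ ∈ p)]

end H65

open H65 in
theorem pf_PB : T_PB := by
  refine ⟨?_, ?_, ?_, fun p k h => app_out h⟩
  · intro p S hp
    have h1 : Svl (rst S p) := by
      intro x y z hy hz
      exact hp x y z (pair_mem_rst.1 hy).2 (pair_mem_rst.1 hz).2
    refine ⟨h1, fun k => ⟨fun hk => ?_, fun hk => ?_⟩⟩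
    · exact app_cong h1 hp fun y => by rw [pair_mem_rst]; exact and_iff_right hk
    · refine app_out fun h2 => ?_
      obtain ⟨y, hy⟩ := mem_dm.1 h2
      exact hk (pair_mem_rst.1 hy).1
  · intro p S p' hp hp'
    have h1 : Svl (cat S p p') := by
      intro x y z hy hz
      rw [pair_mem_cat] at hy hz
      rcases hy with ⟨a, hy⟩ | ⟨a, hy⟩
      · rcases hz with ⟨-, hz⟩ | ⟨b, -⟩
        · exact hp x y z hy hz
        · exact absurd a b
      · rcases hz with ⟨b, -⟩ | ⟨-, hz⟩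
        · exact absurd b a
        · exact hp' x y z hy hz
    refine ⟨h1, fun k => ⟨fun hk => ?_, fun hk => ?_⟩⟩
    · exact app_cong h1 hp fun y => by rw [pair_mem_cat]; simp [hk]
    · exact app_cong h1 hp' fun y => by rw [pair_mem_cat]; simp [hk]
  · intro p k q hp
    have h1 : Svl (upd p k q) := by
      intro x y z hy hz
      rw [pair_mem_upd] at hy hz
      rcases hy with ⟨a, hy⟩ | ⟨a, hy⟩
      · rcases hz with ⟨-, hz⟩ | ⟨b, -⟩
        · rw [hy, hz]
        · exact absurd a b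
      · rcases hz with ⟨b, -⟩ | ⟨-, hz⟩
        · exact absurd b a
        · exact hp x y z hy hz
    refine ⟨h1, app_eq h1 (pair_mem_upd.2 (Or.inl ⟨rfl, rfl⟩)), fun j hj => ?_⟩
    exact app_cong h1 hp fun y => by rw [pair_mem_upd]; simp [hj]

end CAA
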