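import Pool.Agent.H65.CA.Bnd
import Pool.Agent.H14.SF.LEZ
import Pool.Agent.H16.SF.LED

/-!
# Module DM: continuous chains of regular length
-/

set_option autoImplicit false
set_option linter.unusedVariables false

open Ordinal Order Set
open scoped ZFSet

namespace CAA.H65

open SF

/-- the Tarski–Vaught criterion -/
theorem elSub_of_witness {Y U : V} (h0 : Y ⊆ U)
    (h : ∀ (φ : Fml) (v : ℕ → V), (∀ i, v i ∈ Y) → (∃ x ∈ U, Sat (· ∈ U) φ (cons x v)) →
      ∃ x ∈ Y, Sat (· ∈ U) φ (cons x v)) : ElSub Y U := by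
  refine ⟨h0, fun φ => ?_⟩
  induction φ with
  | mem i j => exact fun v hv => Iff.rfl
  | eq i j => exact fun v hv => Iff.rfl
  | prd i => exact fun v hv => Iff.rfl
  | neg φ ih => exact fun v hv => not_congr (ih v hv)
  | and φ ψ ih1 ih2 => exact fun v hv => and_congr (ih1 v hv) (ih2 v hv)
  | ex φ ih =>
    intro v hv
    constructor
    · rintro ⟨x, hx, h1⟩
      exact ⟨x, h0 hx, (ih _ (by rintro (_ | i); exacts [hx, hv i])).1 h1⟩
    · rintro ⟨x, hx, h1⟩
      obtain ⟨y, hy, h2⟩ := h φ v hv ⟨x, hx, h1⟩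
      exact ⟨y, hy, (ih _ (by rintro (_ | i); exacts [hy, hv i])).2 h2⟩

/-- the hypotheses of `T_DM` -/
structure Ch (M : V → Prop) (κ : Ordinal.{0}) (H U : V) : Prop where
  k : ZFm M
  mH : M H
  mκ : M κ.toZFSet
  unc : ω < κ
  lim : IsSuccLimit κ
  tr : ∀ α < κ, (app H α.toZFSet).IsTransitive
  df : ∀ α < κ, Def (app H α.toZFSet) ∅ ⊆ app H (succ α).toZFSet
  mo : ∀ α β, α ≤ β → β < κ → app H α.toZFSet ⊆ app H β.toZFSet
  ct : ∀ γ < κ, IsSuccLimit γ → ∀ x ∈ app H γ.toZFSet, ∃ β < γ, x ∈ app H β.toZFSet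
  bd : ∀ α < κ, ∀ f, M f → ZFSet.IsFunc (app H α.toZFSet) κ.toZFSet f →
    ∃ γ < κ, ∀ x ∈ app H α.toZFSet, app f x ∈ γ.toZFSet
  uu : ∀ x, x ∈ U ↔ ∃ α < κ, x ∈ app H α.toZFSet

namespace Ch

variable {M : V → Prop} {κ : Ordinal.{0}} {H U : V}

theorem sub (h : Ch M κ H U) {α : Ordinal.{0}} (hα : α < κ) : app H α.toZFSet ⊆ U :=
  fun x hx => (h.uu x).2 ⟨α, hα, hx⟩

theorem def_sub (h : Ch M κ H U) {α β : Ordinal.{0}} (h1 : α < β) (hβ : β < κ) :
    Def (app H α.toZFSet) ∅ ⊆ app H β.toZFSet :=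
  (h.df α (h1.trans hβ)).trans (h.mo _ _ (succ_le_of_lt h1) hβ)

theorem self_mem (h : Ch M κ H U) {α β : Ordinal.{0}} (h1 : α < β) (hβ : β < κ) :
    app H α.toZFSet ∈ app H β.toZFSet := h.def_sub h1 hβ self_mem_Def

theorem mapp (h : Ch M κ H U) {α : Ordinal.{0}} (hα : α < κ) : M (app H α.toZFSet) :=
  (Tm.app (Tm.var 1) (Tm.var 0)).1 M h.k (cons α.toZFSet fun _ => H)
    (In.cons (fun _ => h.mH) (h.k.mle h.mκ hα.le))

theorem mU (h : Ch M κ H U) : M U := by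
  have h1 : Tm ZFm (fun _ w => (⋃₀ (imS (w 0) fun x => app (w 1) x) : ZFSet)) :=
    (Tm.iUn (f := fun _ w => w 0) (g := fun _ u => app (u 2) (u 0)) (Tm.var 0)
      (Tm.app (Tm.var 2) (Tm.var 0))).congr fun M k v hv => rfl
  have h2 : M (⋃₀ (imS κ.toZFSet fun x => app H x) : ZFSet) :=
    h1.1 M h.k (cons κ.toZFSet fun _ => H) (In.cons (fun _ => h.mH) h.mκ)
  have e : (⋃₀ (imS κ.toZFSet fun x => app H x) : ZFSet) = U := by
    ext y
    rw [ZFSet.mem_sUnion, h.uu]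
    constructor
    · rintro ⟨_, hz, hy⟩
      obtain ⟨x, hx, rfl⟩ := mem_imS.1 hz
      obtain ⟨α, hα, rfl⟩ := Ordinal.mem_toZFSet_iff.1 hx
      exact ⟨α, hα, hy⟩
    · rintro ⟨α, hα, hy⟩
      exact ⟨_, mem_imS.2 ⟨α.toZFSet, Ordinal.toZFSet_mem_toZFSet_iff.2 hα, rfl⟩, hy⟩
  exact e ▸ h2

theorem ord (h : Ch M κ H U) (α : Ordinal.{0}) (hακ : α < κ) :
    α.toZFSet ⊆ app H α.toZFSet ∧ ∀ β < κ, α < β → α.toZFSet ∈ app H β.toZFSet := by
  induction α using WellFoundedLT.induction with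
  | ind α ih =>
    have h1 : α.toZFSet ⊆ app H α.toZFSet := by
      intro x hx
      obtain ⟨β, hβ, rfl⟩ := Ordinal.mem_toZFSet_iff.1 hx
      exact (ih β hβ (hβ.trans hακ)).2 α hακ hβ
    refine ⟨h1, fun β hβκ hβ => ?_⟩
    by_cases hc : α.toZFSet ∈ app H α.toZFSet
    · exact h.mo _ _ hβ.le hβκ hc
    · refine h.def_sub hβ hβκ ?_
      rcases ZFSet.eq_empty_or_nonempty (app H α.toZFSet) with he | ⟨w, hw⟩
      · have : α.toZFSet = app H α.toZFSet := by
          rw [he]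
          exact (ZFSet.eq_empty _).2 fun z hz => ZFSet.notMem_empty z (he ▸ h1 hz)
        have h4 : app H α.toZFSet ∈ Def (app H α.toZFSet) ∅ := self_mem_Def
        exact (congrArg (· ∈ Def (app H α.toZFSet) ∅) this).mpr h4
      · have h2 := dfb_mem_Def (x := app H α.toZFSet) (A := ∅) (h.tr α hακ) dfb_ord
          (fun _ => w) (fun _ => hw)
        have e : ((app H α.toZFSet).sep fun z => ZFSet.IsOrdinal (cons z (fun _ => w) 0)) =
            α.toZFSet := by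
          ext z
          simp only [ZFSet.mem_sep, cons_zero]
          constructor
          · rintro ⟨h3, h4⟩
            rw [← h4.toZFSet_rank_eq]
            refine Ordinal.toZFSet_mem_toZFSet_iff.2 ?_
            by_contra h5
            rw [not_lt] at h5
            rcases h5.eq_or_lt with h6 | h6
            · have h7 : α.toZFSet = z := by
                rw [h6]
                exact h4.toZFSet_rank_eq
              exact hc (h7 ▸ h3)
            · refine hc (h.tr α hακ z h3 ?_)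
              rw [← h4.toZFSet_rank_eq]
              exact Ordinal.toZFSet_mem_toZFSet_iff.2 h6
          · intro h3
            obtain ⟨β, -, rfl⟩ := Ordinal.mem_toZFSet_iff.1 h3
            exact ⟨h1 h3, ZFSet.isOrdinal_toZFSet β⟩
        rwa [e] at h2

theorem hbd (h : Ch M κ H U) {α : Ordinal.{0}} (hα : α < κ) : Bd M κ (app H α.toZFSet) :=
  ⟨h.mapp hα, h.bd α hα⟩

theorem pos (h : Ch M κ H U) : 0 < κ := Ordinal.omega0_pos.trans h.unc

theorem hom (h : Ch M κ H U) : Bd M κ om :=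
  (h.hbd h.unc).sub h.k h.pos h.k.inf (h.ord ω h.unc).1

/-- all witnesses for parameters in `W δ` are found in `W γ` -/
def St (H U : V) (δ γ : Ordinal.{0}) : Prop :=
  ∀ z ∈ ZFSet.prod CD (PL (app H δ.toZFSet)), (∃ x ∈ U, psh x (snd z) ∈ sS U ∅ (fst z)) →
    ∃ x ∈ app H γ.toZFSet, psh x (snd z) ∈ sS U ∅ (fst z)

theorem St.mono (h : Ch M κ H U) {δ γ γ' : Ordinal.{0}} (h1 : γ ≤ γ') (h2 : γ' < κ)
    (h3 : St H U δ γ) : St H U δ γ' := by
  intro z hz h4
  obtain ⟨x, hx, h5⟩ := h3 z hz h4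
  exact ⟨x, h.mo _ _ h1 h2 hx, h5⟩

/-- the matrix, with the ordinal `w 0`, the pair of the code and the assignment `w 1`, `U = w 2`,
`H = w 3` -/
theorem dfb_mat : Dfb ZFm (fun _ w => (∃ x ∈ w 2, psh x (snd (w 1)) ∈ sS (w 2) ∅ (fst (w 1))) →
    ∃ x ∈ app (w 3) (w 0), psh x (snd (w 1)) ∈ sS (w 2) ∅ (fst (w 1))) := by
  have h1 : Dfb ZFm (fun _ w => psh (w 0) (snd (w 2)) ∈ sS (w 3) ∅ (fst (w 2))) :=
    Dfb.mem (Tm.psh (Tm.var 0) (Tm.snd (Tm.var 2)))
      (Tm.sS (Tm.var 3) Tm.empty (Tm.fst (Tm.var 2)))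
  refine Dfb.imp ?_ ?_
  · exact (Dfb.bex (R := fun _ w => psh (w 0) (snd (w 2)) ∈ sS (w 3) ∅ (fst (w 2))) ktr_zfm
      (Tm.var 2) h1).congr fun M k v hv => Iff.rfl
  · exact (Dfb.bex (R := fun _ w => psh (w 0) (snd (w 2)) ∈ sS (w 3) ∅ (fst (w 2))) ktr_zfm
      (Tm.app (Tm.var 3) (Tm.var 0)) h1).congr fun M k v hv => Iff.rfl

theorem hbig (h : Ch M κ H U) {δ : Ordinal.{0}} (hδ : δ < κ) :
    Bd M κ (ZFSet.prod CD (PL (app H δ.toZFSet))) :=
  (Bd.CD h.k h.mκ h.lim h.hom).prod h.k h.mκ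
    ((h.hbd hδ).prod h.k h.mκ (Bd.Lw h.k h.mκ h.lim h.hom (h.hbd hδ)))

theorem ex_step (h : Ch M κ H U) {δ : Ordinal.{0}} (hδ : δ < κ) :
    ∃ γ < κ, δ < γ ∧ St H U δ γ := by
  obtain ⟨γ, hγ, h1⟩ := (h.hbig hδ).lea h.k h.mκ dfb_mat (p := cons U fun _ => H)
    (In.cons (fun _ => h.mH) h.mU) (by
    intro z hz
    simp only [cons_zero, cons_succ]
    by_cases h1 : ∃ x ∈ U, psh x (snd z) ∈ sS U ∅ (fst z)
    · obtain ⟨x, hx, h2⟩ := id h1
      obtain ⟨β, hβ, h3⟩ := (h.uu x).1 hx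
      exact ⟨β, hβ, fun _ => ⟨x, h3, h2⟩⟩
    · exact ⟨0, h.pos, fun h2 => absurd h2 h1⟩) (by
    intro z hz β hβ γ hγ hβγ
    simp only [cons_zero, cons_succ]
    intro h1 h2
    obtain ⟨x, hx, h3⟩ := h1 h2
    exact ⟨x, h.mo _ _ hβγ hγ hx, h3⟩)
  have h2 : St H U δ γ := by
    intro z hz
    exact h1 z hz
  exact ⟨max γ (succ δ), max_lt hγ (h.lim.succ_lt hδ),
    (lt_succ δ).trans_le (le_max_right _ _),
    St.mono h (le_max_left _ _) (max_lt hγ (h.lim.succ_lt hδ)) h2⟩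

/-- the relation which defines the next level: `w 0` the next level, `w 1` the level, `U = w 2`,
`H = w 3` -/
def R0 (_ : V → Prop) (w : ℕ → V) : Prop := w 1 ∈ w 0 ∧
  ∀ z ∈ ZFSet.prod CD (PL (app (w 3) (w 1))),
    ((∃ x ∈ w 2, psh x (snd z) ∈ sS (w 2) ∅ (fst z)) →
      ∃ x ∈ app (w 3) (w 0), psh x (snd z) ∈ sS (w 2) ∅ (fst z))

theorem dfb_R0 : Dfb ZFm R0 := by
  refine (Dfb.mem (Tm.var 1) (Tm.var 0)).and ?_
  refine (Dfb.ball (R := fun _ w => (∃ x ∈ w 3, psh x (snd (w 0)) ∈ sS (w 3) ∅ (fst (w 0))) →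
    ∃ x ∈ app (w 4) (w 1), psh x (snd (w 0)) ∈ sS (w 3) ∅ (fst (w 0))) ktr_zfm
    (Tm.prod Tm.CD (Tm.PL (Tm.app (Tm.var 3) (Tm.var 1)))) ?_).congr fun M k v hv => Iff.rfl
  exact (dfb_mat.rn fun i => if i = 0 then 1 else if i = 1 then 0 else i + 1).congr
    fun M k v hv => Iff.rfl

theorem step (h : Ch M κ H U) {δ : Ordinal.{0}} (hδ : δ < κ) :
    ∃ γ < κ, δ < γ ∧ St H U δ γ ∧
      lea R0 M (cons δ.toZFSet (cons U fun _ => H)) = γ.toZFSet := by
  have hR : ∀ γ : Ordinal.{0}, R0 M (cons γ.toZFSet (cons δ.toZFSet (cons U fun _ => H))) ↔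
      δ < γ ∧ St H U δ γ := by
    intro γ
    unfold R0 St
    simp only [cons_zero, cons_succ]
    exact and_congr_left fun _ => Ordinal.toZFSet_mem_toZFSet_iff
  obtain ⟨γ, hγ, h1, h2⟩ := h.ex_step hδ
  obtain ⟨β, h3, h4, h5, h6⟩ := lea_spec (R := R0) (h.k.mle h.mκ hγ.le) ((hR γ).2 ⟨h1, h2⟩)
  obtain ⟨h7, h8⟩ := (hR β).1 h6
  exact ⟨β, h3.trans_lt hγ, h7, h8, h4⟩

theorem elem (h : Ch M κ H U) {α : Ordinal.{0}} (hα : α < κ) :
    ∃ β, α < β ∧ β < κ ∧ ElSub (app H β.toZFSet) U := by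
  -- iterate
  have hp : In M (cons α.toZFSet (cons U fun _ => H)) :=
    In.cons (In.cons (fun _ => h.mH) h.mU) (h.k.mle h.mκ hα.le)
  have hnx : Tm ZFm (fun M w => lea R0 M (cons (w 0) fun i => w (i + 2))) :=
    (Tm.lea dfb_R0).push (Tm.var 0) fun i => i + 2
  obtain ⟨s, hs0, hs⟩ : ∃ s : ℕ → Ordinal.{0}, s 0 = α ∧ ∀ n,
      it (fun M w => lea R0 M (cons (w 0) fun i => w (i + 2))) (fun _ w => w 0) M
        (cons α.toZFSet (cons U fun _ => H)) n = (s n).toZFSet ∧ s n < κ ∧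
      (s n < s (n + 1) ∧ St H U (s n) (s (n + 1))) := by
    have hc : ∀ δ : Ordinal.{0}, ∃ γ : Ordinal.{0}, δ < κ → γ < κ ∧ δ < γ ∧ St H U δ γ ∧
        lea R0 M (cons δ.toZFSet (cons U fun _ => H)) = γ.toZFSet := by
      intro δ
      by_cases h1 : δ < κ
      · obtain ⟨γ, hγ⟩ := h.step h1
        exact ⟨γ, fun _ => hγ⟩
      · exact ⟨0, fun h' => absurd h' h1⟩
    choose G hG using hc
    have hM : ∀ n, G^[n] α < κ := by
      intro n
      induction n with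
      | zero => exact hα
      | succ n ih =>
        rw [Function.iterate_succ_apply']
        exact (hG _ ih).1
    refine ⟨fun n => G^[n] α, rfl, fun n => ⟨?_, hM n, ?_, ?_⟩⟩
    · induction n with
      | zero => rfl
      | succ n ih =>
        show lea R0 M (cons (it _ _ M (cons α.toZFSet (cons U fun _ => H)) n)
          (cons U fun _ => H)) = _
        rw [ih, (hG _ (hM n)).2.2.2]
        simp only [Function.iterate_succ_apply']
    · show G^[n] α < G^[n + 1] α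
      rw [Function.iterate_succ_apply']
      exact (hG _ (hM n)).2.1
    · show St H U _ (G^[n + 1] α)
      rw [Function.iterate_succ_apply']
      exact (hG _ (hM n)).2.2.1
  -- the supremum is below `κ`
  have hit : Tm ZFm (fun M w => it (fun M w => lea R0 M (cons (w 0) fun i => w (i + 2)))
      (fun _ w => w 0) M (fun i => w (i + 1)) (nn (w 0))) := tm_it hnx (Tm.var 0)
  obtain ⟨γ, hγ, hγ2⟩ := h.hom.tm h.k hit hp (by
    intro x hx
    obtain ⟨n, rfl⟩ := mem_om.1 hx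
    simp only [cons_zero, cons_succ, nn_nS]
    rw [(hs n).1]
    exact Ordinal.toZFSet_mem_toZFSet_iff.2 (hs n).2.1)
  have hsγ : ∀ n, s n < γ := by
    intro n
    have h1 := hγ2 (nS n) (nS_mem_om n)
    simp only [cons_zero, cons_succ, nn_nS] at h1
    rw [(hs n).1] at h1
    exact Ordinal.toZFSet_mem_toZFSet_iff.1 h1
  let β : Ordinal.{0} := ⨆ n, s n
  have hβκ : β < κ := (Ordinal.iSup_le fun n => (hsγ n).le).trans_lt hγ
  have hlt : ∀ n, s n < β := fun n => (hs n).2.2.1.trans_le (Ordinal.le_iSup s (n + 1))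
  have hβlt : ∀ γ < β, ∃ n, γ < s n := fun γ hγ => Ordinal.lt_iSup_iff.1 hγ
  have hlim : IsSuccLimit β := by
    refine ⟨?_, ?_⟩
    · rw [isMin_iff_eq_bot]
      exact (lt_of_le_of_lt bot_le (hlt 0)).ne'
    · intro γ hγ
      obtain ⟨n, hn⟩ := hβlt γ hγ.lt
      exact hγ.2 hn (hlt n)
  have hin : ∀ x ∈ app H β.toZFSet, ∃ n, x ∈ app H (s n).toZFSet := by
    intro x hx
    obtain ⟨γ, hγ, hx'⟩ := h.ct β hβκ hlim x hx
    obtain ⟨n, hn⟩ := hβlt γ hγ
    exact ⟨n, h.mo _ _ hn.le (hs n).2.1 hx'⟩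
  have hsm : StrictMono s := strictMono_nat_of_lt_succ fun n => (hs n).2.2.1
  refine ⟨β, hs0 ▸ hlt 0, hβκ, elSub_of_witness (h.sub hβκ) fun φ v hv hx => ?_⟩
  have h1 : ∀ n : ℕ, ∃ m, v 0 ∈ app H (s m).toZFSet ∧ ∀ i < n, v i ∈ app H (s m).toZFSet := by
    intro n
    induction n with
    | zero =>
      obtain ⟨m, hm⟩ := hin _ (hv 0)
      exact ⟨m, hm, by simp⟩
    | succ n ih =>
      obtain ⟨m, hm, hm2⟩ := ih
      obtain ⟨m', hm'⟩ := hin _ (hv n)
      refine ⟨max m m', h.mo _ _ (hsm.monotone (le_max_left _ _)) (hs _).2.1 hm, fun i hi => ?_⟩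
      rcases Nat.lt_succ_iff_lt_or_eq.1 hi with h1 | rfl
      · exact h.mo _ _ (hsm.monotone (le_max_left _ _)) (hs _).2.1 (hm2 i h1)
      · exact h.mo _ _ (hsm.monotone (le_max_right _ _)) (hs _).2.1 hm'
  obtain ⟨m, hm, hm2⟩ := h1 φ.bd
  have hl : ∀ p ∈ (List.range φ.bd).map v, p ∈ app H (s m).toZFSet := by
    intro p hp
    obtain ⟨i, hi, rfl⟩ := List.mem_map.1 hp
    exact hm2 i (List.mem_range.1 hi)
  have e : ∀ x ∈ U, (Sat (· ∈ U) φ (cons x v) ↔
      psh x (pl (v 0) ((List.range φ.bd).map v)) ∈ sS U ∅ (cd φ)) := by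
    intro x hx
    rw [psh_pl, ← sat_iff_sS (h.sub (hs m).2.1 hm)]
    · refine satP_congr _ _ _ _ _ fun i hi => ?_
      cases i with
      | zero => rfl
      | succ i =>
        show v i = (x :: (List.range φ.bd).map v).getD (i + 1) (v 0)
        rw [List.getD_cons_succ, List.getD_eq_getElem _ _ (by simp; omega)]
        simp
    · intro p hp
      rcases List.mem_cons.1 hp with rfl | hp
      · exact hx
      · exact h.sub (hs m).2.1 (hl p hp)
  have h2 := (hs m).2.2.2 (ZFSet.pair (cd φ) (pl (v 0) ((List.range φ.bd).map v)))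
    (ZFSet.mem_prod.2 ⟨_, cd_mem_CD φ, _, mem_PL.2 ⟨_, _, rfl, hm, hl⟩, rfl⟩)
  rw [fst_pair, snd_pair] at h2
  obtain ⟨x, hxU, h3⟩ := hx
  obtain ⟨y, hy, h4⟩ := h2 ⟨x, hxU, (e x hxU).1 h3⟩
  exact ⟨y, h.mo _ _ (hlt _).le hβκ hy, (e y (h.sub (hs _).2.1 hy)).2 h4⟩

/-- finitely many elements of `U` are in an elementary level -/
theorem elem_of (h : Ch M κ H U) (n : ℕ) (v : ℕ → V) (hv : ∀ i, v i ∈ U) :
    ∃ β < κ, ElSub (app H β.toZFSet) U ∧ ∀ i < n, v i ∈ app H β.toZFSet := by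
  have h1 : ∃ α < κ, ∀ i < n, v i ∈ app H α.toZFSet := by
    induction n with
    | zero => exact ⟨0, h.pos, by simp⟩
    | succ n ih =>
      obtain ⟨α, hα, h1⟩ := ih
      obtain ⟨β, hβ, h2⟩ := (h.uu _).1 (hv n)
      refine ⟨max α β, max_lt hα hβ, fun i hi => ?_⟩
      rcases Nat.lt_succ_iff_lt_or_eq.1 hi with h3 | rfl
      · exact h.mo _ _ (le_max_left _ _) (max_lt hα hβ) (h1 i h3)
      · exact h.mo _ _ (le_max_right _ _) (max_lt hα hβ) h2
  obtain ⟨α, hα, h2⟩ := h1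
  obtain ⟨β, h3, h4, h5⟩ := h.elem hα
  exact ⟨β, h4, h5, fun i hi => h.mo _ _ h3.le h4 (h2 i hi)⟩

theorem pair_mem (h : Ch M κ H U) {α : Ordinal.{0}} (hα : α < κ) {x y : V}
    (hx : x ∈ app H α.toZFSet) (hy : y ∈ app H α.toZFSet) :
    ({x, y} : V) ∈ Def (app H α.toZFSet) ∅ := by
  have h1 := dfb_mem_Def (A := ∅) (h.tr α hα) (R := fun _ v => v 0 = v 1 ∨ v 0 = v 2)
    ((Dfb.eq (Tm.var 0) (Tm.var 1)).or (Dfb.eq (Tm.var 0) (Tm.var 2)))
    (fun i => if i = 0 then x else y) (fun i => by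
      show (if i = 0 then x else y) ∈ _
      split_ifs
      · exact hx
      · exact hy)
  have e : ((app H α.toZFSet).sep fun z => cons z (fun i => if i = 0 then x else y) 0 =
      cons z (fun i => if i = 0 then x else y) 1 ∨ cons z (fun i => if i = 0 then x else y) 0 =
      cons z (fun i => if i = 0 then x else y) 2) = {x, y} := by
    ext z
    simp only [ZFSet.mem_sep, cons_zero, cons_succ, ZFSet.mem_pair]
    constructor
    · rintro ⟨-, h⟩
      simpa using h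
    · rintro (rfl | rfl)
      · exact ⟨hx, by simp⟩
      · exact ⟨hy, by simp⟩
  rwa [e] at h1

theorem union_mem (h : Ch M κ H U) {α : Ordinal.{0}} (hα : α < κ) {x : V}
    (hx : x ∈ app H α.toZFSet) : (⋃₀ x : ZFSet) ∈ Def (app H α.toZFSet) ∅ := by
  have h1 := dfb_mem_Def (A := ∅) (h.tr α hα) (R := fun _ v => ∃ y ∈ v 1, v 0 ∈ y)
    (Dfb.bex (R := fun _ v => v 1 ∈ v 0) ktr_kt (Tm.var 1) (Dfb.mem (Tm.var 1) (Tm.var 0)))
    (fun _ => x) (fun _ => hx)
  have e : ((app H α.toZFSet).sep fun z => ∃ y ∈ cons z (fun _ => x) 1,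
      cons z (fun _ => x) 0 ∈ y) = (⋃₀ x : ZFSet) := by
    ext z
    simp only [ZFSet.mem_sep, cons_zero, cons_succ, ZFSet.mem_sUnion]
    constructor
    · exact fun h => h.2
    · rintro ⟨y, hy, hz⟩
      exact ⟨h.tr α hα y (h.tr α hα x hx hy) hz, y, hy, hz⟩
  rwa [e] at h1

theorem zfU (h : Ch M κ H U) : ZFm (· ∈ U) := by
  have hs : ∀ α : Ordinal.{0}, α < κ → succ α < κ := fun α hα => h.lim.succ_lt hα
  refine ⟨?_, ?_, ?_, ?_, ?_, ?_⟩
  · intro x hx y hy
    obtain ⟨α, hα, h1⟩ := (h.uu x).1 hx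
    exact h.sub hα (h.tr α hα x h1 hy)
  · intro x y hx hy
    obtain ⟨α, hα, h1⟩ := (h.uu x).1 hx
    obtain ⟨β, hβ, h2⟩ := (h.uu y).1 hy
    have h3 := max_lt hα hβ
    exact h.sub (hs _ h3) (h.df _ h3 (h.pair_mem h3 (h.mo _ _ (le_max_left _ _) h3 h1)
      (h.mo _ _ (le_max_right _ _) h3 h2)))
  · intro x hx
    obtain ⟨α, hα, h1⟩ := (h.uu x).1 hx
    exact h.sub (hs _ hα) (h.df _ hα (h.union_mem hα h1))
  · exact h.sub (hs _ h.unc) ((h.ord ω h.unc).2 _ (hs _ h.unc) (lt_succ _))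
  · intro φ v a hv ha
    let n := φ.bd
    let v' : ℕ → V := fun i => if i < n then v i else a
    have hv' : ∀ i, v' i ∈ U := by
      intro i
      show (if i < n then v i else a) ∈ U
      split_ifs
      · exact hv i
      · exact ha
    obtain ⟨β, hβ, h1, h2⟩ := h.elem_of (n + 1) v' hv'
    have h2' : ∀ i, v' i ∈ app H β.toZFSet := by
      intro i
      by_cases hi : i < n + 1
      · exact h2 i hi
      · have e1 : v' i = v' n := by
          show (if i < n then v i else a) = if n < n then v n else a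
          rw [if_neg (by omega), if_neg (by omega)]
        rw [e1]
        exact h2 n (by omega)
    have ea : v' n = a := by
      show (if n < n then v n else a) = a
      rw [if_neg (lt_irrefl _)]
    have haβ : a ∈ app H β.toZFSet := ea ▸ h2' n
    have h3 := def_mem (x := app H β.toZFSet) (A := ∅) (.and (.mem 0 (n + 1)) φ.np) v' h2'
    have e : ((app H β.toZFSet).sep fun z => SatP (· ∈ app H β.toZFSet) (· ∈ (∅ : V))
        (.and (.mem 0 (n + 1)) φ.np) (cons z v')) = a.sep fun z => Sat (· ∈ U) φ (cons z v) := by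
      ext z
      simp only [ZFSet.mem_sep]
      have e2 : z ∈ app H β.toZFSet → (Sat (· ∈ U) φ (cons z v) ↔
          SatP (· ∈ app H β.toZFSet) (· ∈ (∅ : V)) φ.np (cons z v')) := by
        intro hz
        rw [satP_np, h1.2 φ _ (by rintro (_ | i); exacts [hz, h2' i])]
        refine satP_congr _ _ _ _ _ fun i hi => ?_
        cases i with
        | zero => rfl
        | succ i =>
          show v i = if i < n then v i else a
          rw [if_pos (show i < φ.bd by omega)]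
      constructor
      · rintro ⟨h4, h5, h6⟩
        have h5 : z ∈ v' n := h5
        exact ⟨ea ▸ h5, (e2 h4).2 h6⟩
      · rintro ⟨h4, h5⟩
        have h6 : z ∈ app H β.toZFSet := h.tr β hβ a haβ h4
        have h7 : z ∈ v' n := ea.symm ▸ h4
        exact ⟨h6, h7, (e2 h6).1 h5⟩
    rw [e] at h3
    exact h.sub (hs _ hβ) (h.df _ hβ h3)
  · intro φ v a hv ha h0
    let n := φ.bd
    let v' : ℕ → V := fun i => if i < n then v i else a
    have hv' : ∀ i, v' i ∈ U := by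
      intro i
      show (if i < n then v i else a) ∈ U
      split_ifs
      · exact hv i
      · exact ha
    obtain ⟨β, hβ, h1, h2⟩ := h.elem_of (n + 1) v' hv'
    have h2' : ∀ i, v' i ∈ app H β.toZFSet := by
      intro i
      by_cases hi : i < n + 1
      · exact h2 i hi
      · have e1 : v' i = v' n := by
          show (if i < n then v i else a) = if n < n then v n else a
          rw [if_neg (by omega), if_neg (by omega)]
        rw [e1]
        exact h2 n (by omega)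
    have ea : v' n = a := by
      show (if n < n then v n else a) = a
      rw [if_neg (lt_irrefl _)]
    have haβ : a ∈ app H β.toZFSet := ea ▸ h2' n
    have e2 : ∀ x y : V, (Sat (· ∈ U) φ (cons y (cons x v)) ↔
        Sat (· ∈ U) φ (cons y (cons x v'))) := by
      intro x y
      refine satP_congr _ _ _ _ _ fun i hi => ?_
      rcases i with _ | _ | i
      · rfl
      · rfl
      · show v i = if i < n then v i else a
        rw [if_pos (show i < φ.bd by omega)]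
    refine ⟨app H β.toZFSet, h.sub (hs _ hβ) (h.self_mem (lt_succ β) (hs _ hβ)), fun x hx => ?_⟩
    have hxβ : x ∈ app H β.toZFSet := h.tr β hβ a haβ hx
    obtain ⟨y, hy, h3⟩ := h0 x hx
    have h4 : Sat (· ∈ U) (.ex φ) (cons x v') := ⟨y, hy, (e2 x y).1 h3⟩
    rw [← h1.2 _ _ (by rintro (_ | i); exacts [hxβ, h2' i])] at h4
    obtain ⟨z, hz, h5⟩ := h4
    refine ⟨z, hz, (e2 x z).2 ?_⟩
    exact (h1.2 φ _ (by rintro (_ | _ | i); exacts [hz, hxβ, h2' i])).1 h5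

theorem zfB (h : Ch M κ H U) {β : Ordinal.{0}} (hβ : β < κ) (h0 : 0 < β)
    (h1 : ElSub (app H β.toZFSet) U) : ZFm (· ∈ app H β.toZFSet) := by
  have hne : (app H β.toZFSet).Nonempty := ⟨_, (h.ord 0 h.pos).2 β hβ h0⟩
  have hf : IsElem (app H β.toZFSet) U (resS (app H β.toZFSet) fun x => x) := by
    refine ⟨isFunc_resS _ _ _ fun x hx => h.sub hβ hx, fun φ v hv => ?_⟩
    rw [h1.2 φ v hv]
    have e : (fun i => app (resS (app H β.toZFSet) fun x => x) (v i)) = v := by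
      funext i
      exact app_resS (hv i)
    rw [e]
  exact (pf_LEZ pf_LED _ _ _ hne (h.tr β hβ) hf).1 h.zfU

theorem ords (h : Ch M κ H U) (α : Ordinal.{0}) : α.toZFSet ∈ U ↔ α < κ := by
  constructor
  · intro h1
    by_contra h2
    rw [not_lt] at h2
    obtain ⟨β, hβ, h3⟩ := (h.uu _).1 h1
    have h4 : κ.toZFSet ⊆ app H β.toZFSet := by
      intro x hx
      exact h.tr β hβ _ h3 (Ordinal.toZFSet_subset_toZFSet_iff.2 h2 hx)
    have h5 := (h.hbd hβ).sub h.k h.pos h.mκ h4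
    obtain ⟨γ, hγ, h6⟩ := h5.tm h.k (F := fun _ w => w 0) (Tm.var 0) (p := fun _ => ∅)
      (fun _ => h.k.mempty) (fun x hx => hx)
    have h7 := h6 γ.toZFSet (Ordinal.toZFSet_mem_toZFSet_iff.2 hγ)
    exact lt_irrefl _ (Ordinal.toZFSet_mem_toZFSet_iff.1 h7)
  · intro h1
    exact h.sub (h.lim.succ_lt h1) ((h.ord α h1).2 _ (h.lim.succ_lt h1) (lt_succ _))

end Ch

end CAA.H65

namespace CAA

theorem pf_DM : T_DM := by
  intro M hM κ H U mH mκ unc lim tr df mo ct bd uu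
  have h : H65.Ch M κ H U := ⟨hM.toZFm, mH, mκ, unc, lim, tr, df, mo, ct, bd, uu⟩
  refine ⟨h.mU, fun α hα => ?_, h.zfU, h.ords⟩
  obtain ⟨β, h1, h2, h3⟩ := h.elem hα
  exact ⟨β, h1, h2, h3, h.zfB h2 (pos_of_gt h1) h3⟩

end CAA
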