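import Pool.Agent.H21.CA.UDefs

/-!
# Module UG: the lifted sets form a universe
-/

set_option autoImplicit false

open Ordinal Order Set
open scoped ZFSet

namespace CAU

open SF CAA

theorem mem_lft {x : V} {y : V1} : y ∈ lft x ↔ ∃ u ∈ x, lft u = y := by
  rw [lft, ZFSet.mem_range]
  constructor
  · rintro ⟨⟨u, hu⟩, rfl⟩
    exact ⟨u, hu, rfl⟩
  · rintro ⟨u, hu, rfl⟩
    exact ⟨⟨u, hu⟩, rfl⟩

theorem lft_inj {x y : V} (h : lft x = lft y) : x = y := by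
  induction x using ZFSet.inductionOn generalizing y with
  | _ x ih =>
    ext u
    constructor
    · intro hu
      have h1 : lft u ∈ lft y := by
        rw [← h]
        exact mem_lft.2 ⟨u, hu, rfl⟩
      obtain ⟨v, hv, e⟩ := mem_lft.1 h1
      rw [ih u hu e.symm]
      exact hv
    · intro hu
      have h1 : lft u ∈ lft x := by
        rw [h]
        exact mem_lft.2 ⟨u, hu, rfl⟩
      obtain ⟨v, hv, e⟩ := mem_lft.1 h1
      rw [← ih v hv e]
      exact hv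

theorem lft_mem {x y : V} : lft x ∈ lft y ↔ x ∈ y := by
  constructor
  · intro h
    obtain ⟨u, hu, e⟩ := mem_lft.1 h
    exact lft_inj e ▸ hu
  · intro h
    exact mem_lft.2 ⟨x, h, rfl⟩

theorem mem_VV {z : V1} : z ∈ VV ↔ ∃ x, lft x = z := by
  unfold VV
  rw [ZFSet.mem_range]

theorem lft_mem_VV (x : V) : lft x ∈ VV := mem_VV.2 ⟨x, rfl⟩

theorem eq_lft_sep {x : V} {y : V1} (h : y ⊆ lft x) : y = lft (x.sep fun u => lft u ∈ y) := by
  ext z
  rw [mem_lft]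
  constructor
  · intro hz
    obtain ⟨u, hu, rfl⟩ := mem_lft.1 (h hz)
    exact ⟨u, ZFSet.mem_sep.2 ⟨hu, hz⟩, rfl⟩
  · rintro ⟨u, hu, rfl⟩
    exact (ZFSet.mem_sep.1 hu).2

theorem lft_empty : lft ∅ = ∅ := by
  refine (ZFSet.eq_empty _).2 fun z hz => ?_
  obtain ⟨u, hu, -⟩ := mem_lft.1 hz
  exact ZFSet.notMem_empty _ hu

theorem lft_insert (a b : V) : lft (insert a b) = insert (lft a) (lft b) := by
  ext z
  rw [ZFSet.mem_insert_iff, mem_lft, mem_lft]
  constructor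
  · rintro ⟨u, hu, rfl⟩
    rcases ZFSet.mem_insert_iff.1 hu with rfl | hu
    · exact Or.inl rfl
    · exact Or.inr ⟨u, hu, rfl⟩
  · rintro (rfl | ⟨u, hu, rfl⟩)
    · exact ⟨a, ZFSet.mem_insert_iff.2 (Or.inl rfl), rfl⟩
    · exact ⟨u, ZFSet.mem_insert_iff.2 (Or.inr hu), rfl⟩

theorem lft_singleton (a : V) : lft {a} = {lft a} := by
  ext z
  rw [mem_lft, ZFSet.mem_singleton]
  constructor
  · rintro ⟨u, hu, rfl⟩
    rw [ZFSet.mem_singleton.1 hu]
  · rintro rfl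
    exact ⟨a, ZFSet.mem_singleton.2 rfl, rfl⟩

theorem lft_pair (a b : V) : lft (ZFSet.pair a b) = ZFSet.pair (lft a) (lft b) := by
  have h : ∀ a b : V, lft {a, b} = {lft a, lft b} := by
    intro a b
    rw [show ({a, b} : V) = insert a {b} from rfl, lft_insert, lft_singleton]
  unfold ZFSet.pair
  rw [h, h, lft_singleton]

theorem lft_isFunc {x y f : V} (h : ZFSet.IsFunc x y f) : ZFSet.IsFunc (lft x) (lft y) (lft f) := by
  constructor
  · intro w hw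
    obtain ⟨t, ht, rfl⟩ := mem_lft.1 hw
    obtain ⟨a, ha, b, hb, rfl⟩ := ZFSet.mem_prod.1 (h.1 ht)
    exact ZFSet.mem_prod.2 ⟨_, lft_mem.2 ha, _, lft_mem.2 hb, lft_pair a b⟩
  · intro z hz
    obtain ⟨a, ha, rfl⟩ := mem_lft.1 hz
    obtain ⟨b, hb, hu⟩ := h.2 a ha
    refine ⟨lft b, ?_, fun w hw => ?_⟩
    · show ZFSet.pair (lft a) (lft b) ∈ lft f
      rw [← lft_pair, lft_mem]
      exact hb
    · obtain ⟨t, ht, e⟩ := mem_lft.1 hw
      obtain ⟨a', ha', b', hb', rfl⟩ := ZFSet.mem_prod.1 (h.1 ht)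
      rw [lft_pair] at e
      obtain ⟨e1, e2⟩ := ZFSet.pair_inj.1 e
      have e3 := lft_inj e1
      subst e3
      rw [← e2, hu b' ht]

theorem lft_isTransitive {x : V} (h : x.IsTransitive) : (lft x).IsTransitive := by
  intro y hy z hz
  obtain ⟨u, hu, rfl⟩ := mem_lft.1 hy
  obtain ⟨v, hv, rfl⟩ := mem_lft.1 hz
  exact lft_mem.2 (h u hu hv)

theorem lft_ord (α : Ordinal.{0}) : Ord1 (lft α.toZFSet) := by
  refine ⟨lft_isTransitive (ZFSet.isOrdinal_toZFSet α).isTransitive, fun y hy => ?_⟩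
  obtain ⟨u, hu, rfl⟩ := mem_lft.1 hy
  obtain ⟨β, -, rfl⟩ := Ordinal.mem_toZFSet_iff.1 hu
  exact lft_isTransitive (ZFSet.isOrdinal_toZFSet β).isTransitive

/-- every set is the image of an ordinal -/
theorem exists_onto (x : V) : ∃ (α : Ordinal.{0}) (f : V), Onto f α.toZFSet x := by
  classical
  let X : Type := Shrink.{0} {u : V // u ∈ x}
  let r : X → X → Prop := WellOrderingRel
  let F : V → V := fun y => if h : y.rank < Ordinal.type r then
    ((equivShrink {u : V // u ∈ x}).symm (Ordinal.enum r ⟨y.rank, h⟩)).1 else ∅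
  have hF : ∀ β (h : β < Ordinal.type r), F β.toZFSet =
      ((equivShrink {u : V // u ∈ x}).symm (Ordinal.enum r ⟨β, h⟩)).1 := by
    intro β h
    have h1 : (β.toZFSet).rank = β := Ordinal.rank_toZFSet β
    show (if h : (β.toZFSet).rank < Ordinal.type r then _ else _) = _
    rw [dif_pos (h1.symm ▸ h)]
    congr 4
  refine ⟨Ordinal.type r, resS (Ordinal.type r).toZFSet F, isFunc_resS _ _ _ ?_, ?_⟩
  · intro y hy
    obtain ⟨β, hβ, rfl⟩ := Ordinal.mem_toZFSet_iff.1 hy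
    rw [hF β hβ]
    exact Subtype.property _
  · intro b hb
    let c : X := equivShrink {u : V // u ∈ x} ⟨b, hb⟩
    refine ⟨(Ordinal.typein r c).toZFSet, Ordinal.toZFSet_mem_toZFSet_iff.2
      (Ordinal.typein_lt_type r c), ?_⟩
    rw [pair_mem_resS]
    refine ⟨Ordinal.toZFSet_mem_toZFSet_iff.2 (Ordinal.typein_lt_type r c), ?_⟩
    rw [hF _ (Ordinal.typein_lt_type r c), Ordinal.enum_typein]
    show b = ((equivShrink {u : V // u ∈ x}).symm (equivShrink {u : V // u ∈ x} ⟨b, hb⟩)).1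
    rw [Equiv.symm_apply_apply]

theorem pf_UG : T_UG := by
  refine ⟨?_, ?_, ?_, ?_, ?_, ?_, ?_⟩
  · intro x hx y hy
    obtain ⟨x, rfl⟩ := mem_VV.1 hx
    obtain ⟨u, -, rfl⟩ := mem_lft.1 hy
    exact lft_mem_VV u
  · intro x hx y hy
    obtain ⟨x, rfl⟩ := mem_VV.1 hx
    rw [eq_lft_sep hy]
    exact lft_mem_VV _
  · intro x hx
    obtain ⟨x, rfl⟩ := mem_VV.1 hx
    refine ⟨lft (ZFSet.powerset x), lft_mem_VV _, fun z hz => ?_⟩
    rw [eq_lft_sep hz, lft_mem, ZFSet.mem_powerset]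
    exact fun u hu => (ZFSet.mem_sep.1 hu).1
  · intro x hx
    obtain ⟨x, rfl⟩ := mem_VV.1 hx
    refine ⟨lft (⋃₀ x : ZFSet), lft_mem_VV _, fun z hz u hu => ?_⟩
    obtain ⟨z', hz', rfl⟩ := mem_lft.1 hz
    obtain ⟨u', hu', rfl⟩ := mem_lft.1 hu
    rw [lft_mem, ZFSet.mem_sUnion]
    exact ⟨z', hz', hu'⟩
  · intro x hx F hF
    obtain ⟨x, rfl⟩ := mem_VV.1 hx
    have h1 : ∀ u : V, ∃ g : V, u ∈ x → lft g = F (lft u) := by
      intro u
      by_cases hu : u ∈ x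
      · obtain ⟨g, hg⟩ := mem_VV.1 (hF (lft u) (lft_mem.2 hu))
        exact ⟨g, fun _ => hg⟩
      · exact ⟨∅, fun h => absurd h hu⟩
    choose g hg using h1
    refine ⟨lft (imS x g), lft_mem_VV _, fun u hu => ?_⟩
    obtain ⟨u', hu', rfl⟩ := mem_lft.1 hu
    rw [← hg u' hu', lft_mem]
    exact mem_imS.2 ⟨u', hu', rfl⟩
  · obtain ⟨h1, h2, h3⟩ := (om_char om).1 rfl
    refine ⟨lft om, lft_mem_VV _, ?_, ?_, ?_⟩
    · rw [← lft_empty, lft_mem]
      exact h1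
    · intro y hy
      obtain ⟨y', hy', rfl⟩ := mem_lft.1 hy
      rw [← lft_insert, lft_mem]
      exact h2 y' hy'
    · intro y hy
      obtain ⟨y', hy', rfl⟩ := mem_lft.1 hy
      rcases h3 y' hy' with rfl | ⟨z, hz, rfl⟩
      · exact Or.inl lft_empty
      · exact Or.inr ⟨lft z, lft_mem.2 hz, lft_insert z z⟩
  · intro x hx
    obtain ⟨x, rfl⟩ := mem_VV.1 hx
    obtain ⟨α, f, hf⟩ := exists_onto x
    refine ⟨lft α.toZFSet, lft_mem_VV _, lft_ord α, lft f, lft_mem_VV _, lft_isFunc hf.1, ?_⟩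
    intro b hb
    obtain ⟨b', hb', rfl⟩ := mem_lft.1 hb
    obtain ⟨a, ha, h1⟩ := hf.2 b' hb'
    refine ⟨lft a, lft_mem.2 ha, ?_⟩
    rw [← lft_pair, lft_mem]
    exact h1

end CAU
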