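import Pool.Agent.H9.CA.TarQ
import Pool.Agent.H1.CA.TarP

/-!
# Module ZB: the theorem
-/

set_option autoImplicit false

open Ordinal Order Set
open scoped ZFSet

namespace CAA

open SF

theorem pf_ZB (hU : T_U) (hGA : T_GA) (hGG : T_GG) (hPF : T_PF) (hFM : SF.T_FM) (hZA : T_ZA)
    (hQA : T_QA) (hQK : T_QK) (hM2 : F_M2) : T_ZB := by
  obtain ⟨κ, χ, θ, hG⟩ := hGA hU
  obtain ⟨D, hD⟩ := hGG κ χ θ hG
  obtain ⟨hpo, -, -, he, -⟩ := hPF D hD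
  have hg := hD.grd
  obtain ⟨G, hGen, -⟩ := hFM D.M D.c D.r ∅ hg.ctb hpo he
  have h0 : 0 < D.κ := Ordinal.omega0_pos.trans hg.inac.unc
  have hs : ∀ α < D.κ, succ α < D.κ := by
    intro α hα
    obtain ⟨ρ, h1, h2, -⟩ := hg.unbκ α hα
    exact (succ_le_of_lt h1).trans_lt h2
  obtain ⟨-, -, hzfc, hord, -, hctb⟩ := hQA D G 0 hD hGen h0
  refine ⟨D.N G 0, hctb, hzfc, fun α hα => ?_⟩
  have hα : α < D.κ := (hord α).1 hα
  rw [hZA D G hD hGen α hα, hZA D G hD hGen _ (hs α hα)]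
  refine ⟨(hQA D G α hD hGen hα).2.2.1, fun x hx => ?_, hQK D G α hD hGen (hs α hα)⟩
  have hx : x ∈ D.N G (succ α) := hx
  show x ∈ D.N G α
  unfold Dat.N at hx ⊢
  rw [ZFSet.mem_sep] at hx ⊢
  exact ⟨hM2 D G α (succ α) hD hGen (le_succ α) (hs α hα) hx.1, hx.2⟩

end CAA
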