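import Pool.Agent.H9.CA.Tool
import Pool.Agent.H7.SF.ReflS

/-!
# Sets from which all functions of `M` into `κ` are bounded
-/

set_option autoImplicit false
set_option linter.unusedVariables false

open Ordinal Order Set
open scoped ZFSet

namespace CAA.H65

open SF

/-- functions of `M` from `X` to `κ` are bounded -/
structure Bd (M : V → Prop) (κ : Ordinal.{0}) (X : V) : Prop where
  mem : M X
  bd : ∀ f, M f → ZFSet.IsFunc X κ.toZFSet f → ∃ γ < κ, ∀ x ∈ X, app f x ∈ γ.toZFSet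

variable {M : V → Prop} {κ : Ordinal.{0}} {X Y : V} {F : (V → Prop) → (ℕ → V) → V}

theorem Bd.tm (k : ZFm M) (h : Bd M κ X) (hF : Tm ZFm F) {p : ℕ → V} (hp : In M p)
    (h1 : ∀ x ∈ X, F M (cons x p) ∈ κ.toZFSet) :
    ∃ γ < κ, ∀ x ∈ X, F M (cons x p) ∈ γ.toZFSet := by
  have h2 : Tm ZFm (fun M w => resS (w 0) fun x => F M (cons x fun i => w (i + 1))) :=
    (Tm.resS (f := fun _ w => w 0) (g := fun M u => F M (cons (u 0) fun i => u (i + 2)))
      (Tm.var 0) (hF.push (Tm.var 0) fun i => i + 2)).congr fun M k v hv => rfl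
  have h3 : M (resS X fun x => F M (cons x p)) := h2.1 M k (cons X p) (hp.cons h.mem)
  obtain ⟨γ, hγ, h4⟩ := h.bd _ h3 (isFunc_resS _ _ _ h1)
  refine ⟨γ, hγ, fun x hx => ?_⟩
  have := h4 x hx
  rwa [app_resS hx] at this

/-- a version with the least ordinal with a property -/
theorem Bd.lea (k : ZFm M) (h : Bd M κ X) (hκ : M κ.toZFSet)
    {R : (V → Prop) → (ℕ → V) → Prop} (hR : Dfb ZFm R)
    {p : ℕ → V} (hp : In M p)
    (h1 : ∀ x ∈ X, ∃ β < κ, R M (cons β.toZFSet (cons x p)))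
    (mono : ∀ x ∈ X, ∀ β < κ, ∀ γ < κ, β ≤ γ → R M (cons β.toZFSet (cons x p)) →
      R M (cons γ.toZFSet (cons x p))) :
    ∃ γ < κ, ∀ x ∈ X, R M (cons γ.toZFSet (cons x p)) := by
  obtain ⟨γ, hγ, h2⟩ := h.tm k (Tm.lea hR) hp (by
    intro x hx
    obtain ⟨β, hβ, h2⟩ := h1 x hx
    obtain ⟨δ, hδ, h3, -, -⟩ := lea_spec (R := R) (k.mle hκ hβ.le) h2
    rw [h3]
    exact Ordinal.toZFSet_mem_toZFSet_iff.2 (hδ.trans_lt hβ))
  refine ⟨γ, hγ, fun x hx => ?_⟩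
  obtain ⟨β, hβ, h3⟩ := h1 x hx
  obtain ⟨δ, hδ, h4, -, h5⟩ := lea_spec (R := R) (k.mle hκ hβ.le) h3
  have h6 := h2 x hx
  rw [h4, Ordinal.toZFSet_mem_toZFSet_iff] at h6
  exact mono x hx δ (hδ.trans_lt hβ) γ hγ h6.le h5

theorem Bd.sub (k : ZFm M) (h : Bd M κ X) (h0 : 0 < κ) (hY : M Y) (hYX : Y ⊆ X) : Bd M κ Y := by
  refine ⟨hY, fun f hf hfu => ?_⟩
  have hT : Tm ZFm (fun _ w => sel (w 0 ∈ w 1) (app (w 2) (w 0)) ∅) :=
    Tm.sel (Dfb.mem (Tm.var 0) (Tm.var 1)) (Tm.app (Tm.var 2) (Tm.var 0)) Tm.empty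
  obtain ⟨γ, hγ, h1⟩ := h.tm k hT (p := cons Y fun _ => f) (In.cons (fun _ => hf) hY) (by
    intro x hx
    simp only [cons_zero, cons_succ]
    by_cases hxY : x ∈ Y
    · rw [sel_pos hxY]
      exact app_mem hfu hxY
    · rw [sel_neg hxY, ← Ordinal.toZFSet_zero]
      exact Ordinal.toZFSet_mem_toZFSet_iff.2 h0)
  refine ⟨γ, hγ, fun x hx => ?_⟩
  have h2 := h1 x (hYX hx)
  simp only [cons_zero, cons_succ] at h2
  rwa [sel_pos hx] at h2

theorem Bd.iUn (k : ZFm M) (h : Bd M κ X) (hκ : M κ.toZFSet) (hF : Tm ZFm F) {p : ℕ → V}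
    (hp : In M p) (h1 : ∀ x ∈ X, Bd M κ (F M (cons x p))) :
    Bd M κ (⋃₀ (imS X fun x => F M (cons x p)) : ZFSet) := by
  have h2 : Tm ZFm (fun M w => (⋃₀ (imS (w 0) fun x => F M (cons x fun i => w (i + 1))) : ZFSet)) :=
    (Tm.iUn (f := fun _ w => w 0) (g := fun M u => F M (cons (u 0) fun i => u (i + 2)))
      (Tm.var 0) (hF.push (Tm.var 0) fun i => i + 2)).congr fun M k v hv => rfl
  refine ⟨h2.1 M k (cons X p) (hp.cons h.mem), fun f hf hfu => ?_⟩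
  have hR : Dfb ZFm (fun M w => ∀ y ∈ F M (cons (w 1) fun i => w (i + 3)), app (w 2) y ∈ w 0) := by
    refine (Dfb.ball (R := fun _ w => app (w 3) (w 0) ∈ w 1) ktr_zfm
      (hF.push (Tm.var 1) fun i => i + 3) ?_).congr fun M k v hv => Iff.rfl
    exact Dfb.mem (Tm.app (Tm.var 3) (Tm.var 0)) (Tm.var 1)
  have hmem : ∀ x ∈ X, ∀ y ∈ F M (cons x p), y ∈ (⋃₀ (imS X fun x => F M (cons x p)) : ZFSet) := by
    intro x hx y hy
    rw [ZFSet.mem_sUnion]
    exact ⟨_, mem_imS.2 ⟨x, hx, rfl⟩, hy⟩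
  obtain ⟨γ, hγ, h3⟩ := h.lea k hκ hR (p := cons f p) (hp.cons hf) (by
    intro x hx
    simp only [cons_zero, cons_succ]
    obtain ⟨γ, hγ, h4⟩ := (h1 x hx).tm k (F := fun _ w => app (w 1) (w 0))
      (Tm.app (Tm.var 1) (Tm.var 0)) (p := fun _ => f) (fun _ => hf) (by
        intro y hy
        exact app_mem hfu (hmem x hx y hy))
    exact ⟨γ, hγ, h4⟩) (by
    intro x hx β hβ γ hγ hβγ h4
    simp only [cons_zero, cons_succ] at h4 ⊢
    exact fun y hy => Ordinal.toZFSet_subset_toZFSet_iff.2 hβγ (h4 y hy))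
  refine ⟨γ, hγ, fun y hy => ?_⟩
  rw [ZFSet.mem_sUnion] at hy
  obtain ⟨_, hz, hy⟩ := hy
  obtain ⟨x, hx, rfl⟩ := mem_imS.1 hz
  have h5 := h3 x hx
  simp only [cons_zero, cons_succ] at h5
  exact h5 y hy

theorem Bd.img (k : ZFm M) (h : Bd M κ X) (hF : Tm ZFm F) {p : ℕ → V}
    (hp : In M p) : Bd M κ (imS X fun x => F M (cons x p)) := by
  have h2 : Tm ZFm (fun M w => imS (w 0) fun x => F M (cons x fun i => w (i + 1))) :=
    (Tm.image (f := fun _ w => w 0) (g := fun M u => F M (cons (u 0) fun i => u (i + 2)))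
      (Tm.var 0) (hF.push (Tm.var 0) fun i => i + 2)).congr fun M k v hv => rfl
  refine ⟨h2.1 M k (cons X p) (hp.cons h.mem), fun f hf hfu => ?_⟩
  have hT : Tm ZFm (fun M w => app (w 1) (F M (cons (w 0) fun i => w (i + 2)))) :=
    Tm.app (Tm.var 1) (hF.push (Tm.var 0) fun i => i + 2)
  obtain ⟨γ, hγ, h3⟩ := h.tm k hT (p := cons f p) (hp.cons hf) (by
    intro x hx
    exact app_mem hfu (mem_imS.2 ⟨x, hx, rfl⟩))
  refine ⟨γ, hγ, fun y hy => ?_⟩
  obtain ⟨x, hx, rfl⟩ := mem_imS.1 hy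
  exact h3 x hx

theorem Bd.prod (k : ZFm M) (hκ : M κ.toZFSet) (h : Bd M κ X) (h' : Bd M κ Y) :
    Bd M κ (ZFSet.prod X Y) := by
  have hT : Tm ZFm (fun _ w => imS (w 1) fun y => ZFSet.pair (w 0) y) :=
    (Tm.image (f := fun _ w => w 1) (g := fun _ u => ZFSet.pair (u 1) (u 0)) (Tm.var 1)
      (Tm.pair (Tm.var 1) (Tm.var 0))).congr fun M k v hv => rfl
  have h1 := h.iUn k hκ hT (p := fun _ => Y) (fun _ => h'.mem) (by
    intro x hx
    have := h'.img k (F := fun _ w => ZFSet.pair (w 1) (w 0)) (Tm.pair (Tm.var 1) (Tm.var 0))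
      (p := fun _ => x) (fun _ => k.trans _ h.mem _ hx)
    exact this)
  have e : (⋃₀ (imS X fun x => imS ((cons x fun _ => Y) 1) fun y => ZFSet.pair x y) : ZFSet) =
      ZFSet.prod X Y := by
    ext z
    rw [ZFSet.mem_sUnion, ZFSet.mem_prod]
    constructor
    · rintro ⟨_, hw, hz⟩
      obtain ⟨x, hx, rfl⟩ := mem_imS.1 hw
      obtain ⟨y, hy, rfl⟩ := mem_imS.1 hz
      exact ⟨x, hx, y, hy, rfl⟩
    · rintro ⟨x, hx, y, hy, rfl⟩
      exact ⟨_, mem_imS.2 ⟨x, hx, rfl⟩, mem_imS.2 ⟨y, hy, rfl⟩⟩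
  exact e ▸ h1

theorem Bd.union (k : ZFm M) (h : Bd M κ X) (h' : Bd M κ Y) : Bd M κ (X ∪ Y) := by
  have hM : M (X ∪ Y) := (Tm.union (Tm.var 0) (Tm.var 1)).1 M k (cons X fun _ => Y)
    (In.cons (fun _ => h'.mem) h.mem)
  refine ⟨hM, fun f hf hfu => ?_⟩
  obtain ⟨γ, hγ, h1⟩ := h.tm k (F := fun _ w => app (w 1) (w 0))
      (Tm.app (Tm.var 1) (Tm.var 0)) (p := fun _ => f) (fun _ => hf) (by
        intro y hy
        exact app_mem hfu (ZFSet.mem_union.2 (Or.inl hy)))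
  obtain ⟨δ, hδ, h2⟩ := h'.tm k (F := fun _ w => app (w 1) (w 0))
      (Tm.app (Tm.var 1) (Tm.var 0)) (p := fun _ => f) (fun _ => hf) (by
        intro y hy
        exact app_mem hfu (ZFSet.mem_union.2 (Or.inr hy)))
  refine ⟨max γ δ, max_lt hγ hδ, fun x hx => ?_⟩
  rcases ZFSet.mem_union.1 hx with hx | hx
  · exact Ordinal.toZFSet_subset_toZFSet_iff.2 (le_max_left _ _) (h1 x hx)
  · exact Ordinal.toZFSet_subset_toZFSet_iff.2 (le_max_right _ _) (h2 x hx)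

theorem Bd.sing (k : ZFm M) (hl : IsSuccLimit κ) {a : V} (ha : M a) : Bd M κ ({a} : V) := by
  have hM : M ({a} : V) := (Tm.sing (Tm.var 0)).1 M k (fun _ => a) fun _ => ha
  refine ⟨hM, fun f hf hfu => ?_⟩
  obtain ⟨β, hβ, h1⟩ := Ordinal.mem_toZFSet_iff.1 (app_mem hfu (ZFSet.mem_singleton.2 rfl))
  refine ⟨succ β, hl.succ_lt hβ, fun x hx => ?_⟩
  rw [ZFSet.mem_singleton.1 hx, ← h1]
  exact Ordinal.toZFSet_mem_toZFSet_iff.2 (lt_succ β)

/-- lists -/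
theorem Bd.Lw (k : ZFm M) (hκ : M κ.toZFSet) (hl : IsSuccLimit κ) (hom : Bd M κ om)
    (h : Bd M κ X) : Bd M κ (Lw X) := by
  have h1 : ∀ n, Bd M κ (ls X n) := by
    intro n
    induction n with
    | zero => exact Bd.sing k hl k.mempty
    | succ n ih => exact h.prod k hκ ih
  exact hom.iUn k hκ (F := fun _ w => ls (w 1) (nn (w 0))) (Tm.ls (Tm.var 1) (Tm.var 0))
    (p := fun _ => X) (fun _ => h.mem) fun x hx => h1 _

/-- codes of formulas -/
theorem Bd.CD (k : ZFm M) (hκ : M κ.toZFSet) (hl : IsSuccLimit κ) (hom : Bd M κ om) :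
    Bd M κ CD := by
  have hs : ∀ n : ℕ, Bd M κ ({nS n} : V) := fun n =>
    Bd.sing k hl (k.trans _ k.inf _ (nS_mem_om n))
  have h1 : ∀ n, Bd M κ (CDs^[n] CD0) := by
    intro n
    induction n with
    | zero =>
      show Bd M κ CD0
      unfold CD0
      exact ((hs 0).prod k hκ (hom.prod k hκ hom)).union k
        (((hs 1).prod k hκ (hom.prod k hκ hom)).union k ((hs 2).prod k hκ hom))
    | succ n ih =>
      rw [Function.iterate_succ_apply']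
      unfold CDs
      exact ih.union k (((hs 3).prod k hκ ih).union k (((hs 4).prod k hκ (ih.prod k hκ ih)).union k
        ((hs 5).prod k hκ ih)))
  have h2 := hom.iUn k hκ (Tm.it tm_CDs tm_CD0 (Tm.var 0)) (p := fun _ => ∅)
    (fun _ => k.mempty) fun x hx => (by
      show Bd M κ (it _ _ M _ _)
      rw [it_CD]
      exact h1 _)
  have e : (⋃₀ (imS om fun x => it (fun _ u => CDs (u 0)) (fun _ _ => CD0) M (cons x fun _ => ∅)
      (nn x)) : ZFSet) = SF.CD := by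
    ext y
    rw [mem_CD_iff, ZFSet.mem_sUnion]
    constructor
    · rintro ⟨_, hz, hy⟩
      obtain ⟨x, hx, rfl⟩ := mem_imS.1 hz
      rw [it_CD] at hy
      exact ⟨_, hy⟩
    · rintro ⟨n, hn⟩
      refine ⟨_, mem_imS.2 ⟨nS n, nS_mem_om n, rfl⟩, ?_⟩
      rw [it_CD, nn_nS]
      exact hn
  exact e ▸ h2

end CAA.H65
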